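import Mathlib

set_option autoImplicit false

namespace Pool.Agent.Results.MP_f5adcb_gt.Lattice

open Set Filter Topology TopologicalSpace MvPolynomial

/-- a base of clopen sets with the nesting property -/
def PrettyBase {X : Type} [TopologicalSpace X] (B : Set (Set X)) : Prop :=
  (∀ U ∈ B, IsClopen U) ∧ IsTopologicalBasis B ∧
    ∀ C D : Set (Set X), C ⊆ B → C.Countable → D ⊆ B → (∀ U ∈ C, ∀ V ∈ D, Disjoint U V) →
      ∃ W ∈ B, (∀ U ∈ C, U ⊆ W) ∧ ∀ V ∈ D, Disjoint W V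

/-- the cotopology of the base is compact -/
def Cocompact {X : Type} [TopologicalSpace X] (B : Set (Set X)) : Prop :=
  @CompactSpace X (generateFrom ((fun U : Set X => (closure U)ᶜ) '' B))

/-- countable annihilator condition -/
def CAC (R : Type) [CommRing R] : Prop :=
  ∀ a : ℕ → R, ∃ b : R, {c | b * c = 0} = ⋂ n, {c | a n * c = 0}

variable {X : Type} (B : Set (Set X))

open Classical in
noncomputable def kill (x : X) : MvPolynomial B ℤ →ₐ[ℤ] MvPolynomial B ℤ :=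
  aeval fun U => if x ∈ U.1 then MvPolynomial.X U else 0

open Classical in
lemma coeff_kill (x : X) (P : MvPolynomial B ℤ) (m : B →₀ ℕ) :
    coeff m (kill B x P) = if ∀ U ∈ m.support, x ∈ U.1 then coeff m P else 0 := by
  induction P using MvPolynomial.induction_on' with
  | monomial d a =>
    by_cases h : ∀ U ∈ d.support, x ∈ U.1
    · have : kill B x (monomial d a) = monomial d a := by
        rw [kill, aeval_monomial, monomial_eq]
        congr 1
        exact Finsupp.prod_congr fun U hU => by rw [if_pos (h U hU)]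
      rw [this]
      split_ifs with k
      · rfl
      · rw [coeff_monomial, if_neg]
        rintro rfl
        exact k h
    · have : kill B x (monomial d a) = 0 := by
        push Not at h
        obtain ⟨U, h1, h2⟩ := h
        rw [kill, aeval_monomial, Finsupp.prod, Finset.prod_eq_zero h1, mul_zero]
        rw [if_neg h2, zero_pow (Finsupp.mem_support_iff.1 h1)]
      rw [this, coeff_zero]
      split_ifs with k
      · rw [coeff_monomial, if_neg]
        rintro rfl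
        exact h k
      · rfl
  | add p q hp hq =>
    rw [map_add, coeff_add, hp, hq]
    split_ifs <;> simp

lemma kill_ne (x : X) (P : MvPolynomial B ℤ) :
    kill B x P ≠ 0 ↔ x ∈ ⋃ m ∈ P.support, ⋂ U ∈ m.support, U.1 := by
  simp only [mem_iUnion, mem_iInter, ne_eq, MvPolynomial.ext_iff, coeff_kill, coeff_zero,
    not_forall, ite_eq_right_iff, mem_support_iff]
  exact ⟨fun ⟨m, h1, h2⟩ => ⟨m, h2, h1⟩, fun ⟨m, h1, h2⟩ => ⟨m, h2, h1⟩⟩

noncomputable def R : Subring (X → MvPolynomial B ℤ) :=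
  (RingHom.pi fun x => (kill B x).toRingHom).range

def coz (r : R B) : Set X := {x | r.1 x ≠ 0}

lemma coz_mul (r s : R B) : coz B (r * s) = coz B r ∩ coz B s := by
  ext x; simp [coz]

lemma coz_empty {r : R B} : coz B r = ∅ ↔ r = 0 :=
  ⟨fun h => Subtype.ext (funext fun x => not_not.1 fun e => (h ▸ e : x ∈ (∅ : Set X))),
    fun h => by simp [coz, h]⟩

lemma ex_coz {U : Set X} (h : U ∈ B) : ∃ r, coz B r = U :=
  ⟨⟨_, MvPolynomial.X ⟨U, h⟩, rfl⟩, by
    ext x
    show kill B x (MvPolynomial.X ⟨U, h⟩) ≠ 0 ↔ x ∈ U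
    simp [kill]⟩

lemma coz_mem {L : Set (Set X)} (hB : B ⊆ L) (h0 : ∅ ∈ L) (h1 : univ ∈ L)
    (hi : ∀ U ∈ L, ∀ V ∈ L, U ∩ V ∈ L) (hu : ∀ U ∈ L, ∀ V ∈ L, U ∪ V ∈ L) (r : R B) :
    coz B r ∈ L := by
  classical
  obtain ⟨_, P, rfl⟩ := r
  have : coz B ⟨_, P, rfl⟩ = ⋃ m ∈ P.support, ⋂ U ∈ m.support, U.1 := Set.ext fun x => kill_ne B x P
  rw [this]
  refine Finset.induction_on P.support (by simpa using h0) fun m s _ ih => ?_
  rw [Finset.set_biUnion_insert]
  refine hu _ ?_ _ ih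
  refine Finset.induction_on m.support (by simpa using h1) fun U s _ ih => ?_
  rw [Finset.set_biInter_insert]
  exact hi _ (hB U.2) _ ih

noncomputable def pr (x : X) : PrimeSpectrum (R B) :=
  ⟨RingHom.ker ((Pi.evalRingHom _ x).comp (R B).subtype), RingHom.ker_isPrime _⟩

lemma mem_pr {x : X} {r : R B} : r ∈ (pr B x).asIdeal ↔ x ∉ coz B r := by
  simp [pr, coz, RingHom.mem_ker]

lemma main (X : Type) [TopologicalSpace X] [T2Space X] (B : Set (Set X)) (hB : PrettyBase B)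
    (hc : Cocompact B) (hi : ∀ U ∈ B, ∀ V ∈ B, U ∩ V ∈ B) :
    ∃ (R : Type) (_ : CommRing R), IsReduced R ∧ CAC R ∧
      Nonempty (X ≃ₜ {P : PrimeSpectrum R // P.asIdeal ∈ minimalPrimes R}) := by
  obtain ⟨b1, b2, b3⟩ := hB
  have sup : ∀ C ⊆ B, C.Countable → ∃ W ∈ B, (∀ U ∈ C, U ⊆ W) ∧
      ∀ O, IsOpen O → (∀ U ∈ C, Disjoint U O) → Disjoint W O := fun C h1 h2 => by
    obtain ⟨W, w1, w2, w3⟩ := b3 C {V ∈ B | ∀ U ∈ C, Disjoint U V} h1 h2 (fun _ e => e.1)
      fun U hU V hV => hV.2 U hU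
    refine ⟨W, w1, w2, fun O o h => Set.disjoint_left.2 fun x hx hO => ?_⟩
    obtain ⟨V, v1, v2, v3⟩ := b2.exists_subset_of_mem_open hO o
    exact Set.disjoint_left.1 (w3 V ⟨v1, fun U hU => (h U hU).mono_right v3⟩) hx v2
  have un : ∀ U ∈ B, ∀ V ∈ B, U ∪ V ∈ B := fun U hU V hV => by
    obtain ⟨W, w1, w2, w3⟩ := sup {U, V} (by rintro _ (rfl | rfl) <;> assumption)
      (toFinite _).countable
    have : W = U ∪ V := subset_antisymm (disjoint_compl_right_iff_subset.1
      (w3 _ ((b1 U hU).union (b1 V hV)).1.isOpen_compl (by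
        rintro _ (rfl | rfl) <;> rw [disjoint_compl_right_iff_subset] <;> simp)))
      (union_subset (w2 U (by simp)) (w2 V (by simp)))
    exact this ▸ w1
  have em0 : ∅ ∈ B := by
    obtain ⟨W, w1, -, w3⟩ := sup ∅ (empty_subset _) countable_empty
    have : W = ∅ := by simpa using w3 univ isOpen_univ (by simp)
    exact this ▸ w1
  have cm : ∀ r, coz B r ∈ insert univ B := coz_mem B (subset_insert _ _) (Or.inr em0) (Or.inl rfl)
    (by rintro U (rfl | h) V (rfl | k) <;> simp [*]) (by rintro U (rfl | h) V (rfl | k) <;> simp [*])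
  have co : ∀ r, IsOpen (coz B r) := fun r =>
    (cm r).elim (fun e => e ▸ isOpen_univ) fun e => (b1 _ e).2
  have below : ∀ P : Ideal (R B), P.IsPrime → ∃ x, (pr B x).asIdeal ≤ P := fun P hP => by
    have ce : ∀ U ∈ B, (closure U)ᶜ = Uᶜ := fun U e => by rw [(b1 _ e).1.closure_eq]
    let t := generateFrom ((fun U : Set X => (closure U)ᶜ) '' B)
    have : Nonempty {r // r ∉ P} := ⟨⟨1, (Ideal.ne_top_iff_one P).1 hP.1⟩⟩
    have cl : ∀ r, IsClosed[t] (coz B r) := fun r => (cm r).elim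
      (fun e => e ▸ @isClosed_univ _ t) fun e => (@isOpen_compl_iff _ _ t).1
        (GenerateOpen.basic _ ⟨_, e, ce _ e⟩)
    obtain ⟨x, hx⟩ := @IsCompact.nonempty_iInter_of_directed_nonempty_isCompact_isClosed X t _ _
      (fun r : {r // r ∉ P} => coz B r.1)
      (fun r s => ⟨⟨r.1 * s.1, fun e => (hP.mem_or_mem e).elim r.2 s.2⟩,
        by simp [coz_mul], by simp [coz_mul]⟩)
      (fun r => nonempty_iff_ne_empty.2 fun e => r.2 ((coz_empty B).1 e ▸ P.zero_mem))
      (fun r => @IsClosed.isCompact _ t _ hc (cl r.1)) fun r => cl r.1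
    exact ⟨x, fun r hr => not_not.1 fun e => (mem_pr B).1 hr (mem_iInter.1 hx ⟨r, e⟩)⟩
  have inj : ∀ x y, (pr B y).asIdeal ≤ (pr B x).asIdeal → y = x := fun x y h => by
    by_contra e
    obtain ⟨U, u1, u2, u3⟩ := b2.exists_subset_of_mem_open (show x ∈ ({y} : Set X)ᶜ from Ne.symm e)
      isOpen_compl_singleton
    obtain ⟨r, rfl⟩ := ex_coz B u1
    exact (mem_pr B).1 (h ((mem_pr B).2 fun k => u3 k rfl)) u2
  have emb : IsEmbedding (pr B) := by
    refine ⟨⟨?_⟩, fun x y h => inj y x (by rw [h])⟩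
    refine b2.eq_generateFrom.trans (Eq.trans ?_ (@IsTopologicalBasis.eq_generateFrom _ (_) _
      (PrimeSpectrum.isTopologicalBasis_basic_opens.induced (pr B))).symm)
    refine le_antisymm (le_generateFrom ?_) (generateFrom_anti fun U hU => ?_)
    · rintro _ ⟨_, ⟨r, rfl⟩, rfl⟩
      rw [← b2.eq_generateFrom]
      convert co r using 1
      ext x; simp [mem_pr]
    · obtain ⟨r, rfl⟩ := ex_coz B hU
      exact ⟨_, ⟨r, rfl⟩, by ext x; simp [mem_pr]⟩
  have rg : range (pr B) = {P | P.asIdeal ∈ minimalPrimes (R B)} := by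
    rw [minimalPrimes_eq_minimals]
    ext P
    refine ⟨?_, fun h => ?_⟩
    · rintro ⟨x, rfl⟩
      refine ⟨(pr B x).2, fun Q hQ h => ?_⟩
      obtain ⟨y, hy⟩ := below Q hQ
      exact inj x y (hy.trans h) ▸ hy
    · obtain ⟨x, hx⟩ := below _ P.2
      exact ⟨x, PrimeSpectrum.ext (le_antisymm hx (h.2 (pr B x).2 hx))⟩
  refine ⟨R B, inferInstance, isReduced_of_injective (R B).subtype Subtype.val_injective, fun a => ?_,
    ⟨emb.toHomeomorph.trans (Homeomorph.setCongr rg)⟩⟩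
  have z : ∀ r s : R B, r * s = 0 ↔ Disjoint (coz B r) (coz B s) := fun r s => by
    rw [← coz_empty, coz_mul, disjoint_iff_inter_eq_empty]
  simp only [z]
  by_cases e : ∃ n, coz B (a n) = univ
  · obtain ⟨n, hn⟩ := e
    refine ⟨a n, subset_antisymm (fun c hc => mem_iInter.2 fun m => ?_) (iInter_subset _ n)⟩
    exact Disjoint.mono_left (hn ▸ subset_univ _) hc
  · obtain ⟨W, w1, w2, w3⟩ := sup (range fun n => coz B (a n))
      (by rintro _ ⟨n, rfl⟩; exact (cm _).resolve_left fun k => e ⟨n, k⟩) (countable_range _)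
    obtain ⟨b, rfl⟩ := ex_coz B w1
    refine ⟨b, subset_antisymm (fun c hc => mem_iInter.2 fun n => ?_) fun c hc => w3 _ (co c) ?_⟩
    · exact Disjoint.mono_left (w2 _ ⟨n, rfl⟩) hc
    · rintro _ ⟨n, rfl⟩; exact mem_iInter.1 hc n

lemma ann {R : Type} [CommRing R] [IsReduced R] {P : Ideal R} (hP : P ∈ minimalPrimes R) {a : R}
    (ha : a ∈ P) : ∃ c ∉ P, a * c = 0 := by
  have := hP.1.1
  by_contra e
  push Not at e
  obtain ⟨p, p1, -, p2⟩ := Ideal.exists_le_prime_disjoint (⊥ : Ideal R)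
    (P.primeCompl ⊔ Submonoid.powers a) (Set.disjoint_left.2 fun x hx h => by
      obtain ⟨c, hc, _, ⟨n, rfl⟩, rfl⟩ := Submonoid.mem_sup.1 h
      refine e c hc (IsNilpotent.eq_zero ⟨n + 1, ?_⟩)
      have : c * a ^ n = 0 := hx
      linear_combination (a * c ^ n) * this)
  exact Set.disjoint_left.1 p2 (hP.2 ⟨p1, bot_le⟩ (fun c hc => not_not.1 fun k =>
    Set.disjoint_left.1 p2 hc (Submonoid.mem_sup_left k)) ha)
    (Submonoid.mem_sup_right (Submonoid.mem_powers a))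

lemma conv (X : Type) [TopologicalSpace X] (R : Type) [CommRing R] [IsReduced R] (hR : CAC R)
    (e : X ≃ₜ {P : PrimeSpectrum R // P.asIdeal ∈ minimalPrimes R}) :
    ∃ B : Set (Set X), PrettyBase B ∧ Cocompact B ∧ ∀ U ∈ B, ∀ V ∈ B, U ∩ V ∈ B := by
  let h : R → Set X := fun a => {x | a ∉ (e x).1.asIdeal}
  have m : ∀ a b, h (a * b) = h a ∩ h b := fun a b => Set.ext fun x =>
    ((e x).1.2.mul_mem_iff_mem_or_mem.not.trans not_or)
  have z : ∀ a b, Disjoint (h a) (h b) ↔ a * b = 0 := fun a b => by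
    rw [disjoint_iff_inter_eq_empty, ← m]
    refine ⟨fun k => IsNilpotent.eq_zero ?_, fun k => by simp [h, k]⟩
    rw [← mem_nilradical, nilradical, ← Ideal.sInf_minimalPrimes]
    refine Ideal.mem_sInf.2 fun P hP => not_not.1 fun q => ?_
    have : e.symm ⟨⟨P, hP.1.1⟩, hP⟩ ∈ h (a * b) := by simpa [h] using q
    exact (k ▸ this : _ ∈ (∅ : Set X))
  have o : ∀ a x, x ∉ h a → ∃ c, x ∈ h c ∧ a * c = 0 := fun a x hx => ann (e x).2 (not_not.1 hx)
  have bs : IsTopologicalBasis (range h) := by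
    convert PrimeSpectrum.isTopologicalBasis_basic_opens.isInducing
      (IsInducing.subtypeVal.comp e.isInducing) using 1
    rw [← range_comp]; rfl
  have cl : ∀ a, IsClopen (h a) := fun a => ⟨⟨isOpen_iff_forall_mem_open.2 fun x hx => by
    obtain ⟨c, c1, c2⟩ := o a x hx
    exact ⟨_, disjoint_left.1 ((z a c).2 c2).symm, bs.isOpen ⟨c, rfl⟩, c1⟩⟩, bs.isOpen ⟨a, rfl⟩⟩
  refine ⟨range h, ⟨by rintro _ ⟨a, rfl⟩; exact cl a, bs, fun C D hC hc hD hd => ?_⟩, ?_, ?_⟩
  · obtain ⟨f, hf⟩ := (hc.insert (h 0)).exists_eq_range (insert_nonempty _ _)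
    choose a ha using fun n => insert_subset (mem_range_self 0) hC (hf ▸ mem_range_self n)
    obtain ⟨b, hb⟩ := hR a
    refine ⟨_, ⟨b, rfl⟩, fun U hU x hx => not_not.1 fun k => ?_, fun V hV => ?_⟩
    · obtain ⟨c, c1, c2⟩ := o b x k
      obtain ⟨n, rfl⟩ : U ∈ range f := hf ▸ Or.inr hU
      exact disjoint_left.1 ((z _ c).2 (mem_iInter.1 (hb.subset c2) n)) (ha n ▸ hx) c1
    · obtain ⟨d, rfl⟩ := hD hV
      refine (z b d).2 (hb.superset (mem_iInter.2 fun n => (z _ d).1 ?_))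
      rcases (hf ▸ mem_range_self n : f n ∈ insert (h 0) C) with k | k
      · rw [ha, k]; exact (z 0 d).2 (zero_mul d)
      · rw [ha]; exact hd _ k _ hV
  · refine @CompactSpace.mk _ (_) ((@isCompact_iff_ultrafilter_le_nhds _ (_) _).2 fun u _ => ?_)
    let P : Ideal R :=
      { carrier := {a | (h a)ᶜ ∈ u}
        add_mem' := fun {a b} ha hb => mem_of_superset (inter_mem ha hb) fun x hx k =>
          k (add_mem (not_not.1 hx.1) (not_not.1 hx.2))
        zero_mem' := univ_mem' fun x k => k (zero_mem _)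
        smul_mem' := fun c a ha => mem_of_superset ha fun x hx k =>
          k (Ideal.mul_mem_left _ _ (not_not.1 hx)) }
    have : P.IsPrime := ⟨(Ideal.ne_top_iff_one P).2 fun k => by
      obtain ⟨x, hx⟩ := u.nonempty_of_mem k
      exact hx ((Ideal.ne_top_iff_one _).1 (e x).1.2.1), fun {a b} k => by
        have : (h (a * b))ᶜ ∈ u := k
        rwa [m, compl_inter, Ultrafilter.union_mem_iff] at this⟩
    obtain ⟨Q, q1, q2⟩ := Ideal.exists_minimalPrimes_le (bot_le : ⊥ ≤ P)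
    refine ⟨e.symm ⟨⟨Q, q1.1.1⟩, q1⟩, trivial, ?_⟩
    rw [nhds_generateFrom]
    refine le_iInf₂ ?_
    rintro _ ⟨h1, _, ⟨a, rfl⟩, rfl⟩
    simp only [(cl a).1.closure_eq] at h1 ⊢
    exact le_principal_iff.2 (q2 (by simpa [h] using h1))
  · rintro _ ⟨a, rfl⟩ _ ⟨b, rfl⟩; exact ⟨_, m a b⟩

theorem result (X : Type) [TopologicalSpace X] [T2Space X] :
    (∃ (R : Type) (_ : CommRing R), IsReduced R ∧ CAC R ∧
      Nonempty (X ≃ₜ {P : PrimeSpectrum R // P.asIdeal ∈ minimalPrimes R})) ↔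
    ∃ B : Set (Set X), PrettyBase B ∧ Cocompact B ∧ ∀ U ∈ B, ∀ V ∈ B, U ∩ V ∈ B :=
  ⟨fun ⟨R, _, _, h, ⟨e⟩⟩ => conv X R h e, fun ⟨B, h1, h2, h3⟩ => main X B h1 h2 h3⟩

end Pool.Agent.Results.MP_f5adcb_gt.Lattice
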